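import Pool.Agent.W544.KF.Defs2

set_option autoImplicit false

/-!
Project KF (helper544), part corner (helper55).
-/

namespace Pool.Agent.W55.KF

open Pool.Agent.W544.KF

universe w v u

section

variable {F : Type w} [Field F] {R : Type v} [Ring R] [Algebra F R]

theorem pow_mono' {M N : Submodule F R} (h : M ≤ N) : ∀ n : ℕ, M ^ n ≤ N ^ n
  | 0 => by simp
  | n + 1 => by
      rw [pow_succ, pow_succ]
      exact mul_le_mul' (pow_mono' h n) h

theorem ideal_pow (J p : Submodule F R) (hJ : J * J ≤ J) (hp : p * p = p) (k : ℕ) :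
    (J * p * J) ^ (k + 1) ≤ J * (p * J * p) ^ k * p * J := by
  induction k with
  | zero => simp
  | succ k ih =>
    rw [pow_succ]
    refine (mul_le_mul' ih le_rfl).trans ?_
    have e1 : J * (p * J * p) ^ k * p * J * (J * p * J)
        = J * (p * J * p) ^ k * (p * (J * J) * p) * J := by
      simp only [mul_assoc]
    have e2 : J * (p * J * p) ^ (k + 1) * p * J
        = J * (p * J * p) ^ k * (p * J * p) * J := by
      have e3 : (p * J * p) * p = p * J * p := by rw [mul_assoc, hp]
      calc J * (p * J * p) ^ (k + 1) * p * J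
          = J * (p * J * p) ^ k * ((p * J * p) * p) * J := by
            rw [pow_succ]; simp only [mul_assoc]
        _ = _ := by rw [e3]
    rw [e1, e2]
    have h1 : p * (J * J) * p ≤ p * J * p :=
      mul_le_mul' (mul_le_mul' le_rfl hJ) le_rfl
    exact mul_le_mul' (mul_le_mul' le_rfl h1) le_rfl

theorem sup_pow (B C : Submodule F R) (hl : ∀ X : Submodule F R, X * B ≤ B)
    (hr : ∀ X : Submodule F R, B * X ≤ B) (k : ℕ) : (B ⊔ C) ^ (k + 1) ≤ B ⊔ C ^ (k + 1) := by
  induction k with
  | zero => simp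
  | succ k ih =>
    rw [pow_succ]
    refine (mul_le_mul' ih le_rfl).trans ?_
    rw [Submodule.sup_mul]
    refine sup_le (le_sup_of_le_left (hr _)) ?_
    rw [Submodule.mul_sup]
    refine sup_le (le_sup_of_le_left (hl _)) ?_
    rw [← pow_succ]
    exact le_sup_right

theorem one_corner [CharZero F] (h : S_NH.{w, v}) (J : Submodule F R)
    (hl : ∀ r, ∀ x ∈ J, r * x ∈ J) (hJJ : J * J ≤ J) (p : R)
    (hp : p * p = p) (a : ℕ) (ha : ∀ x ∈ J, (p * x * p) ^ (a + 1) = 0) :
    ∃ m : ℕ, (J * Submodule.span F {p} * J) ^ (m + 1) = ⊥ := by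
  set P : Submodule F R := Submodule.span F {p} with hP
  have hPP : P * P = P := by
    rw [hP, Submodule.span_mul_span, Set.singleton_mul_singleton, hp]
  set A : Submodule F R := J.map ((LinearMap.mulRight F p).comp (LinearMap.mulLeft F p)) with hA
  have hmem : ∀ y, y ∈ A ↔ ∃ x ∈ J, p * x * p = y := by
    intro y
    rw [hA, Submodule.mem_map]
    simp
  have hAA : A * A ≤ A := by
    rw [Submodule.mul_le]
    intro y hy z hz
    obtain ⟨x, hx, rfl⟩ := (hmem y).1 hy
    obtain ⟨x', hx', rfl⟩ := (hmem z).1 hz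
    refine (hmem _).2 ⟨x * p * x', hl _ _ hx', ?_⟩
    calc p * (x * p * x') * p = p * x * (p * x') * p := by simp only [mul_assoc]
      _ = p * x * (p * p * x') * p := by rw [hp]
      _ = p * x * p * (p * x' * p) := by simp only [mul_assoc]
  obtain ⟨m, hm⟩ := h F R A hAA a (fun y hy => by
    obtain ⟨x, hx, rfl⟩ := (hmem y).1 hy
    exact ha x hx)
  have hX : P * J * P ≤ A := by
    rw [Submodule.mul_le]
    intro y hy z hz
    rw [hP] at hz
    obtain ⟨c, rfl⟩ := Submodule.mem_span_singleton.1 hz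
    have : ∀ y ∈ P * J, y * p ∈ A := by
      intro y hy
      refine Submodule.mul_induction_on hy ?_ ?_
      · intro s hs x hx
        rw [hP] at hs
        obtain ⟨d, rfl⟩ := Submodule.mem_span_singleton.1 hs
        refine (hmem _).2 ⟨d • x, J.smul_mem d hx, ?_⟩
        simp [mul_assoc]
      · intro s t hs ht
        rw [add_mul]
        exact A.add_mem hs ht
    rw [mul_smul_comm]
    exact A.smul_mem c (this y hy)
  refine ⟨m, ?_⟩
  have h1 := ideal_pow J P hJJ hPP m
  have h2 : (P * J * P) ^ m = ⊥ := by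
    rw [eq_bot_iff, ← hm]
    exact pow_mono' hX m
  rw [h2, Submodule.mul_bot, Submodule.bot_mul, Submodule.bot_mul] at h1
  exact eq_bot_iff.2 h1

end

theorem corner (h : S_NH.{w, v}) : S_corner.{w, v} := by
  intro F _ _ R _ _ J hl hr p q hp hq hpq a b ha hb
  have hJl : ∀ X : Submodule F R, X * J ≤ J := by
    intro X
    rw [Submodule.mul_le]
    intro r _ x hx
    exact hl r x hx
  have hJr : ∀ X : Submodule F R, J * X ≤ J := by
    intro X
    rw [Submodule.mul_le]
    intro x hx r _
    exact hr r x hx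
  obtain ⟨s, hs⟩ := one_corner h J hl (hJl J) p hp a ha
  obtain ⟨t, ht⟩ := one_corner h J hl (hJl J) q hq b hb
  set B := J * Submodule.span F {p} * J with hB
  set C := J * Submodule.span F {q} * J with hC
  have hBl : ∀ X : Submodule F R, X * B ≤ B := by
    intro X
    rw [hB, ← mul_assoc, ← mul_assoc]
    exact mul_le_mul' (mul_le_mul' (hJl X) le_rfl) le_rfl
  have hBr : ∀ X : Submodule F R, B * X ≤ B := by
    intro X
    rw [hB, mul_assoc]
    exact mul_le_mul' le_rfl (hJr X)
  have hJJ : J * J ≤ B ⊔ C := by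
    rw [Submodule.mul_le]
    intro x hx y hy
    have e : x * y = x * p * y + x * q * y := by
      rw [← add_mul, ← mul_add, hpq, mul_one]
    rw [e]
    refine Submodule.add_mem_sup ?_ ?_
    · rw [hB]
      exact Submodule.mul_mem_mul (Submodule.mul_mem_mul hx (Submodule.mem_span_singleton_self p)) hy
    · rw [hC]
      exact Submodule.mul_mem_mul (Submodule.mul_mem_mul hx (Submodule.mem_span_singleton_self q)) hy
  have h1 : (J * J) ^ (t + 1) ≤ B := by
    refine (pow_mono' hJJ (t + 1)).trans ?_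
    refine (sup_pow B C hBl hBr t).trans ?_
    rw [ht]
    simp
  have h2 : ((J * J) ^ (t + 1)) ^ (s + 1) = ⊥ := by
    rw [eq_bot_iff, ← hs]
    exact pow_mono' h1 (s + 1)
  refine ⟨2 * ((t + 1) * (s + 1)), ?_⟩
  rw [pow_mul, pow_mul, pow_two]
  exact h2

end Pool.Agent.W55.KF
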